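import Mathlib

/-!
# MP_aedb6c_co: diameter over average distance

Among connected graphs on `n ≥ 3` vertices the ratio diameter / average distance is maximised by
some balanced bug.
-/

namespace Pool.Agent.Results.MP_aedb6c_co.BalancedBug

/-- The average distance: the mean of the distances over all ordered (equivalently, over all
unordered) pairs of distinct vertices. -/
noncomputable def avgDist {V : Type} [Fintype V] (G : SimpleGraph V) : ℝ :=
  (∑ u, ∑ v, (G.dist u v : ℝ)) / ((Fintype.card V : ℝ) * ((Fintype.card V : ℝ) - 1))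

/-- The ratio of the diameter and the average distance. -/
noncomputable def ratio {V : Type} [Fintype V] (G : SimpleGraph V) : ℝ :=
  (G.diam : ℝ) / avgDist G

/-- Adjacency in a bug, one direction. The vertices are those of the clique `Fin p` and the new
vertices of the two paths `Fin k1`, `Fin k2`; the deleted edge joins `0` and `1` in `Fin p`,
the first path is attached to `0` and the second one to `1`. -/
def bugRel (p k1 k2 : ℕ) : Fin p ⊕ (Fin k1 ⊕ Fin k2) → Fin p ⊕ (Fin k1 ⊕ Fin k2) → Prop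
  | .inl i, .inl j => ¬ (i.val = 0 ∧ j.val = 1) ∧ ¬ (i.val = 1 ∧ j.val = 0)
  | .inl i, .inr (.inl a) => i.val = 0 ∧ a.val = 0
  | .inl i, .inr (.inr b) => i.val = 1 ∧ b.val = 0
  | .inr (.inl a), .inr (.inl a') => a.val + 1 = a'.val
  | .inr (.inr b), .inr (.inr b') => b.val + 1 = b'.val
  | _, _ => False

/-- The bug `Bug_{p,k1,k2}`. -/
def bug (p k1 k2 : ℕ) : SimpleGraph (Fin p ⊕ (Fin k1 ⊕ Fin k2)) :=
  SimpleGraph.fromRel (bugRel p k1 k2)

/-! ### Graphs with a position function -/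

section Pos

variable {V : Type} {G : SimpleGraph V} {pos : V → ℕ} {D : ℕ}

lemma walk_lip (h : ∀ x y, G.Adj x y → pos x ≤ pos y + 1 ∧ pos y ≤ pos x + 1) {x y : V}
    (w : G.Walk x y) : pos x ≤ pos y + w.length ∧ pos y ≤ pos x + w.length := by
  induction w with
  | nil => simp
  | cons hadj w ih =>
    have := h _ _ hadj
    rw [SimpleGraph.Walk.length_cons]
    omega

lemma exists_walk (h : ∀ x y, G.Adj x y ↔ x ≠ y ∧ pos x ≤ pos y + 1 ∧ pos y ≤ pos x + 1)
    (hs : ∀ i ≤ D, ∃ x, pos x = i) (hD : ∀ x, pos x ≤ D) :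
    ∀ (k : ℕ) (x y : V), pos y = pos x + (k + 1) → ∃ w : G.Walk x y, w.length = k + 1 := by
  intro k
  induction k with
  | zero =>
    intro x y hxy
    have hadj : G.Adj x y := by
      rw [h]
      refine ⟨?_, by omega, by omega⟩
      rintro rfl
      omega
    exact ⟨hadj.toWalk, by simp⟩
  | succ k ih =>
    intro x y hxy
    obtain ⟨z, hz⟩ := hs (pos x + 1) (by have := hD y; omega)
    have hadj : G.Adj x z := by
      rw [h]
      refine ⟨?_, by omega, by omega⟩
      rintro rfl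
      omega
    obtain ⟨w, hw⟩ := ih z y (by omega)
    exact ⟨SimpleGraph.Walk.cons hadj w, by rw [SimpleGraph.Walk.length_cons, hw]⟩

/-- The distance bound in graphs with a position function. -/
def dd (a b : ℕ) : ℕ := max ((a - b) + (b - a)) 1

lemma dist_bound (h : ∀ x y, G.Adj x y ↔ x ≠ y ∧ pos x ≤ pos y + 1 ∧ pos y ≤ pos x + 1)
    (hs : ∀ i ≤ D, ∃ x, pos x = i) (hD : ∀ x, pos x ≤ D) (x y : V) (hxy : x ≠ y) :
    ∃ w : G.Walk x y, w.length ≤ dd (pos x) (pos y) := by
  unfold dd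
  rcases lt_trichotomy (pos x) (pos y) with hlt | heq | hgt
  · obtain ⟨w, hw⟩ := exists_walk h hs hD (pos y - pos x - 1) x y (by omega)
    exact ⟨w, by omega⟩
  · have hadj : G.Adj x y := (h x y).2 ⟨hxy, by omega, by omega⟩
    exact ⟨hadj.toWalk, by simp⟩
  · obtain ⟨w, hw⟩ := exists_walk h hs hD (pos x - pos y - 1) y x (by omega)
    exact ⟨w.reverse, by rw [SimpleGraph.Walk.length_reverse]; omega⟩

lemma conn_of_pos [Nonempty V]
    (h : ∀ x y, G.Adj x y ↔ x ≠ y ∧ pos x ≤ pos y + 1 ∧ pos y ≤ pos x + 1)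
    (hs : ∀ i ≤ D, ∃ x, pos x = i) (hD : ∀ x, pos x ≤ D) : G.Connected := by
  rw [SimpleGraph.connected_iff]
  refine ⟨fun x y => ?_, inferInstance⟩
  by_cases hxy : x = y
  · subst hxy
    exact SimpleGraph.Reachable.refl _
  · obtain ⟨w, _⟩ := dist_bound h hs hD x y hxy
    exact ⟨w⟩

end Pos

/-! ### The bug -/

/-- Position function of the bug. -/
def bpos (p k1 k2 : ℕ) : Fin p ⊕ (Fin k1 ⊕ Fin k2) → ℕ
  | .inl i => if i.val = 0 then k1 else if i.val = 1 then k1 + 2 else k1 + 1
  | .inr (.inl a) => k1 - 1 - a.val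
  | .inr (.inr b) => k1 + 3 + b.val

lemma bug_adj (p k1 k2 : ℕ) (x y : Fin p ⊕ (Fin k1 ⊕ Fin k2)) :
    (bug p k1 k2).Adj x y ↔ x ≠ y ∧ bpos p k1 k2 x ≤ bpos p k1 k2 y + 1 ∧
      bpos p k1 k2 y ≤ bpos p k1 k2 x + 1 := by
  unfold bug
  rw [SimpleGraph.fromRel_adj]
  apply and_congr_right
  intro hxy
  rcases x with i | a | b <;> rcases y with j | a' | b' <;> simp only [bugRel, bpos, or_false, false_or,
    false_iff]
  · have : i.val ≠ j.val := fun he => hxy (by rw [Fin.ext he])
    split_ifs <;> omega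
  · have := a'.isLt
    split_ifs <;> omega
  · have := b'.isLt
    split_ifs <;> omega
  · have := a.isLt
    split_ifs <;> omega
  · have := a.isLt
    have := a'.isLt
    have : a.val ≠ a'.val := fun he => hxy (by rw [Fin.ext he])
    omega
  · have := a.isLt
    have := b'.isLt
    omega
  · have := b.isLt
    split_ifs <;> omega
  · have := b.isLt
    have := a'.isLt
    omega
  · have := b.isLt
    have := b'.isLt
    have : b.val ≠ b'.val := fun he => hxy (by rw [Fin.ext he])
    omega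

/-- Enumeration of the vertices of the bug: the long path, then the other clique vertices. -/
def enum (q k1 k2 : ℕ) : Fin (k1 + k2 + 3) ⊕ Fin q → Fin (q + 3) ⊕ (Fin k1 ⊕ Fin k2)
  | .inl i =>
    if h : i.val < k1 then .inr (.inl ⟨k1 - 1 - i.val, by omega⟩)
    else if h3 : i.val = k1 then .inl ⟨0, by omega⟩
    else if h4 : i.val = k1 + 1 then .inl ⟨2, by omega⟩
    else if h2 : i.val = k1 + 2 then .inl ⟨1, by omega⟩
    else .inr (.inr ⟨i.val - (k1 + 3), by have := i.isLt; omega⟩)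
  | .inr j => .inl ⟨j.val + 3, by omega⟩

lemma enum_pos_inl (q k1 k2 : ℕ) (i : Fin (k1 + k2 + 3)) :
    bpos (q + 3) k1 k2 (enum q k1 k2 (.inl i)) = i.val := by
  have := i.isLt
  unfold enum
  simp only
  split_ifs with h1 h2 h3 h4
  · show k1 - 1 - (k1 - 1 - i.val) = i.val
    omega
  · show k1 = i.val
    omega
  · show k1 + 1 = i.val
    omega
  · show k1 + 2 = i.val
    omega
  · show k1 + 3 + (i.val - (k1 + 3)) = i.val
    omega

lemma enum_pos_inr (q k1 k2 : ℕ) (j : Fin q) :
    bpos (q + 3) k1 k2 (enum q k1 k2 (.inr j)) = k1 + 1 := by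
  simp [enum, bpos]

lemma enum_inj (q k1 k2 : ℕ) : Function.Injective (enum q k1 k2) := by
  intro x y hxy
  rcases x with i | i <;> rcases y with j | j
  · have := congrArg (bpos (q + 3) k1 k2) hxy
    rw [enum_pos_inl, enum_pos_inl] at this
    rw [Fin.ext this]
  · exfalso
    have h1 := congrArg (bpos (q + 3) k1 k2) hxy
    rw [enum_pos_inl, enum_pos_inr] at h1
    unfold enum at hxy
    simp only at hxy
    rw [dif_neg (by omega), dif_neg (by omega), dif_pos (by omega)] at hxy
    have := Sum.inl.inj hxy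
    have := congrArg Fin.val this
    simp only at this
    omega
  · exfalso
    have h1 := congrArg (bpos (q + 3) k1 k2) hxy
    rw [enum_pos_inl, enum_pos_inr] at h1
    unfold enum at hxy
    simp only at hxy
    rw [dif_neg (by omega), dif_neg (by omega), dif_pos (by omega)] at hxy
    have := Sum.inl.inj hxy
    have := congrArg Fin.val this
    simp only at this
    omega
  · unfold enum at hxy
    have := Sum.inl.inj hxy
    have := congrArg Fin.val this
    simp only at this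
    have : i = j := Fin.ext (by omega)
    rw [this]

lemma enum_bij (q k1 k2 : ℕ) : Function.Bijective (enum q k1 k2) := by
  rw [Fintype.bijective_iff_injective_and_card]
  refine ⟨enum_inj q k1 k2, ?_⟩
  simp only [Fintype.card_sum, Fintype.card_fin]
  omega

/-- The total distance which both the bug and the extremal bound attain. -/
def target (D q c : ℕ) : ℕ :=
  (∑ i : Fin (D + 1), ∑ j : Fin (D + 1), ((i.val - j.val) + (j.val - i.val))) +
    2 * (q * ∑ i : Fin (D + 1), dd i.val c) + q * (q - 1)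

lemma bug_total (q k1 k2 : ℕ) :
    ∑ x, ∑ y, (bug (q + 3) k1 k2).dist x y ≤ target (k1 + k2 + 2) q (k1 + 1) := by
  classical
  have hs : ∀ i ≤ k1 + k2 + 2, ∃ x, bpos (q + 3) k1 k2 x = i := by
    intro i hi
    exact ⟨enum q k1 k2 (.inl ⟨i, by omega⟩), enum_pos_inl q k1 k2 _⟩
  have hD : ∀ x, bpos (q + 3) k1 k2 x ≤ k1 + k2 + 2 := by
    intro x
    obtain ⟨z, rfl⟩ := (enum_bij q k1 k2).2 x
    rcases z with i | j
    · rw [enum_pos_inl]
      have := i.isLt
      omega
    · rw [enum_pos_inr]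
      omega
  have hd : ∀ x y, x ≠ y → (bug (q + 3) k1 k2).dist x y ≤
      dd (bpos (q + 3) k1 k2 x) (bpos (q + 3) k1 k2 y) := by
    intro x y hxy
    obtain ⟨w, hw⟩ := dist_bound (bug_adj (q + 3) k1 k2) hs hD x y hxy
    exact (SimpleGraph.dist_le w).trans hw
  rw [← (enum_bij q k1 k2).sum_comp]
  simp_rw [← (enum_bij q k1 k2).sum_comp (fun y => (bug (q + 3) k1 k2).dist _ y)]
  rw [Fintype.sum_sum_type]
  simp_rw [Fintype.sum_sum_type]
  rw [Finset.sum_add_distrib, Finset.sum_add_distrib]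
  have h1 : ∑ i : Fin (k1 + k2 + 3), ∑ j : Fin (k1 + k2 + 3),
      (bug (q + 3) k1 k2).dist (enum q k1 k2 (.inl i)) (enum q k1 k2 (.inl j)) ≤
      ∑ i : Fin (k1 + k2 + 3), ∑ j : Fin (k1 + k2 + 3),
        ((i.val - j.val) + (j.val - i.val)) := by
    apply Finset.sum_le_sum
    intro i _
    apply Finset.sum_le_sum
    intro j _
    by_cases hij : i = j
    · subst hij
      simp
    · have := hd _ _ ((enum_inj q k1 k2).ne (show Sum.inl i ≠ Sum.inl j from
        fun he => hij (Sum.inl.inj he)))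
      rw [enum_pos_inl, enum_pos_inl] at this
      have h2 : i.val ≠ j.val := fun he => hij (Fin.ext he)
      unfold dd at this
      omega
  have h2 : ∑ i : Fin (k1 + k2 + 3), ∑ j : Fin q,
      (bug (q + 3) k1 k2).dist (enum q k1 k2 (.inl i)) (enum q k1 k2 (.inr j)) ≤
      q * ∑ i : Fin (k1 + k2 + 3), dd i.val (k1 + 1) := by
    rw [Finset.mul_sum]
    apply Finset.sum_le_sum
    intro i _
    have : ∀ j ∈ (Finset.univ : Finset (Fin q)),
        (bug (q + 3) k1 k2).dist (enum q k1 k2 (.inl i)) (enum q k1 k2 (.inr j)) ≤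
        dd i.val (k1 + 1) := by
      intro j _
      have := hd _ _ ((enum_inj q k1 k2).ne (show (Sum.inl i : Fin (k1 + k2 + 3) ⊕ Fin q) ≠ Sum.inr j
        from Sum.inl_ne_inr))
      rwa [enum_pos_inl, enum_pos_inr] at this
    have := Finset.sum_le_card_nsmul _ _ _ this
    rwa [Finset.card_univ, Fintype.card_fin, smul_eq_mul] at this
  have h3 : ∑ j : Fin q, ∑ i : Fin (k1 + k2 + 3),
      (bug (q + 3) k1 k2).dist (enum q k1 k2 (.inr j)) (enum q k1 k2 (.inl i)) ≤
      q * ∑ i : Fin (k1 + k2 + 3), dd i.val (k1 + 1) := by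
    rw [Finset.sum_comm]
    simp_rw [SimpleGraph.dist_comm (u := enum q k1 k2 (.inr _))]
    exact h2
  have h4 : ∑ i : Fin q, ∑ j : Fin q,
      (bug (q + 3) k1 k2).dist (enum q k1 k2 (.inr i)) (enum q k1 k2 (.inr j)) ≤ q * (q - 1) := by
    have : ∀ i ∈ (Finset.univ : Finset (Fin q)), ∑ j : Fin q,
        (bug (q + 3) k1 k2).dist (enum q k1 k2 (.inr i)) (enum q k1 k2 (.inr j)) ≤ q - 1 := by
      intro i _
      rw [← Finset.add_sum_erase _ _ (Finset.mem_univ i), SimpleGraph.dist_self, zero_add]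
      have h5 : ∀ j ∈ (Finset.univ : Finset (Fin q)).erase i,
          (bug (q + 3) k1 k2).dist (enum q k1 k2 (.inr i)) (enum q k1 k2 (.inr j)) ≤ 1 := by
        intro j hj
        have hij := Finset.ne_of_mem_erase hj
        have := hd _ _ ((enum_inj q k1 k2).ne
          (show (Sum.inr i : Fin (k1 + k2 + 3) ⊕ Fin q) ≠ Sum.inr j from
          fun he => hij (Sum.inr.inj he).symm))
        rw [enum_pos_inr, enum_pos_inr] at this
        unfold dd at this
        omega
      have := Finset.sum_le_card_nsmul _ _ _ h5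
      rwa [Finset.card_erase_of_mem (Finset.mem_univ i), Finset.card_univ, Fintype.card_fin,
        smul_eq_mul, mul_one] at this
    have := Finset.sum_le_card_nsmul _ _ _ this
    rwa [Finset.card_univ, Fintype.card_fin, smul_eq_mul] at this
  change _ ≤ (∑ i : Fin (k1 + k2 + 3), ∑ j : Fin (k1 + k2 + 3),
    ((i.val - j.val) + (j.val - i.val))) +
    2 * (q * ∑ i : Fin (k1 + k2 + 3), dd i.val (k1 + 1)) + q * (q - 1)
  omega

lemma bug_diam (q k1 k2 : ℕ) : k1 + k2 + 2 ≤ (bug (q + 3) k1 k2).diam := by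
  classical
  have : Nonempty (Fin (q + 3) ⊕ (Fin k1 ⊕ Fin k2)) := ⟨.inl 0⟩
  have hs : ∀ i ≤ k1 + k2 + 2, ∃ x, bpos (q + 3) k1 k2 x = i := by
    intro i hi
    exact ⟨enum q k1 k2 (.inl ⟨i, by omega⟩), enum_pos_inl q k1 k2 _⟩
  have hD : ∀ x, bpos (q + 3) k1 k2 x ≤ k1 + k2 + 2 := by
    intro x
    obtain ⟨z, rfl⟩ := (enum_bij q k1 k2).2 x
    rcases z with i | j
    · rw [enum_pos_inl]
      have := i.isLt
      omega
    · rw [enum_pos_inr]
      omega
  have hc := conn_of_pos (bug_adj (q + 3) k1 k2) hs hD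
  obtain ⟨x, hx⟩ := hs 0 (by omega)
  obtain ⟨y, hy⟩ := hs (k1 + k2 + 2) (le_refl _)
  obtain ⟨w, hw⟩ := hc.exists_walk_length_eq_dist x y
  have h1 := walk_lip (fun x y h => ((bug_adj (q + 3) k1 k2 x y).1 h).2) w
  have h2 := SimpleGraph.dist_le_diam (SimpleGraph.connected_iff_ediam_ne_top.1 hc)
    (u := x) (v := y)
  omega

/-! ### The lower bound -/

lemma lower {V : Type} [Fintype V] [DecidableEq V] {G : SimpleGraph V} (hc : G.Connected)
    (D q c : ℕ) (hcard : Fintype.card V = D + 1 + q) (u v : V) (huv : G.dist u v = D)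
    (hcD : 2 * c ≤ D + 1 ∧ D ≤ 2 * c + 1) :
    target D q c ≤ ∑ x, ∑ y, G.dist x y := by
  classical
  have hex : ∀ i : Fin (D + 1), ∃ x, G.dist u x = i.val ∧ G.dist x v = D - i.val := by
    intro i
    obtain ⟨w, hw⟩ := hc.exists_walk_length_eq_dist u v
    have hi := i.isLt
    refine ⟨w.getVert i.val, ?_⟩
    have h1 : G.dist u (w.getVert i.val) ≤ i.val := by
      refine (SimpleGraph.dist_le (w.take i.val)).trans ?_
      rw [SimpleGraph.Walk.take_length]
      exact min_le_left _ _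
    have h2 : G.dist (w.getVert i.val) v ≤ D - i.val := by
      refine (SimpleGraph.dist_le (w.drop i.val)).trans ?_
      rw [SimpleGraph.Walk.drop_length]
      omega
    have h3 := hc.dist_triangle (u := u) (v := w.getVert i.val) (w := v)
    omega
  choose P hP1 hP2 using hex
  have hPd : ∀ i j, (i.val - j.val) + (j.val - i.val) ≤ G.dist (P i) (P j) := by
    intro i j
    have h1 := hc.dist_triangle (u := u) (v := P i) (w := P j)
    have h2 := hc.dist_triangle (u := u) (v := P j) (w := P i)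
    rw [SimpleGraph.dist_comm (u := P j) (v := P i)] at h2
    rw [hP1, hP1] at h1 h2
    omega
  have hPinj : Function.Injective P := by
    intro i j hij
    have := hP1 i
    rw [hij, hP1 j] at this
    exact Fin.ext this.symm
  set A : Finset V := Finset.univ.image P with hA
  have hAcard : A.card = D + 1 := by
    rw [hA, Finset.card_image_of_injective _ hPinj, Finset.card_univ, Fintype.card_fin]
  have hBcard : Aᶜ.card = q := by
    rw [Finset.card_compl, hAcard, hcard]
    omega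
  have hsumA : ∀ f : V → ℕ, ∑ x ∈ A, f x = ∑ i, f (P i) := by
    intro f
    rw [hA, Finset.sum_image (fun i _ j _ h => hPinj h)]
  have hpos : ∀ x y, x ≠ y → 1 ≤ G.dist x y := fun x y hxy =>
    (hc.pos_dist_of_ne hxy)
  have hAA : ∑ i : Fin (D + 1), ∑ j : Fin (D + 1), ((i.val - j.val) + (j.val - i.val)) ≤
      ∑ x ∈ A, ∑ y ∈ A, G.dist x y := by
    rw [hsumA]
    apply Finset.sum_le_sum
    intro i _
    rw [hsumA]
    apply Finset.sum_le_sum
    intro j _
    exact hPd i j
  have hwA : ∀ w ∈ Aᶜ, ∑ i : Fin (D + 1), dd i.val c ≤ ∑ x ∈ A, G.dist w x := by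
    intro w hw
    rw [Finset.mem_compl] at hw
    rw [hsumA]
    have hwP : ∀ i, 1 ≤ G.dist w (P i) := by
      intro i
      apply hpos
      rintro rfl
      apply hw
      rw [hA]
      exact Finset.mem_image_of_mem _ (Finset.mem_univ _)
    have hrev : ∀ f : Fin (D + 1) → ℕ, ∑ i, f i = ∑ i, f (Fin.rev i) := by
      intro f
      exact (Equiv.sum_comp Fin.revPerm f).symm
    have h2 : ∑ i : Fin (D + 1), (dd i.val c + dd (Fin.rev i).val c) ≤
        ∑ i : Fin (D + 1), (G.dist w (P i) + G.dist w (P (Fin.rev i))) := by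
      apply Finset.sum_le_sum
      intro i _
      have h3 := hPd i (Fin.rev i)
      have h4 := hc.dist_triangle (u := P i) (v := w) (w := P (Fin.rev i))
      rw [SimpleGraph.dist_comm (u := P i) (v := w)] at h4
      have h5 := hwP i
      have h6 := hwP (Fin.rev i)
      have h7 : (Fin.rev i).val = D - i.val := by
        rw [Fin.val_rev]
        omega
      have hi := i.isLt
      rw [h7] at h3 ⊢
      unfold dd
      omega
    rw [Finset.sum_add_distrib, Finset.sum_add_distrib, ← hrev (fun i => dd i.val c),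
      ← hrev (fun i => G.dist w (P i))] at h2
    omega
  have hBA : q * ∑ i : Fin (D + 1), dd i.val c ≤ ∑ w ∈ Aᶜ, ∑ x ∈ A, G.dist w x := by
    have := Finset.card_nsmul_le_sum _ _ _ hwA
    rwa [hBcard, smul_eq_mul] at this
  have hAB : ∑ x ∈ A, ∑ w ∈ Aᶜ, G.dist x w = ∑ w ∈ Aᶜ, ∑ x ∈ A, G.dist w x := by
    rw [Finset.sum_comm]
    apply Finset.sum_congr rfl
    intro w _
    apply Finset.sum_congr rfl
    intro x _
    exact SimpleGraph.dist_comm
  have hBB : q * (q - 1) ≤ ∑ x ∈ Aᶜ, ∑ y ∈ Aᶜ, G.dist x y := by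
    have h1 : ∀ x ∈ Aᶜ, q - 1 ≤ ∑ y ∈ Aᶜ, G.dist x y := by
      intro x hx
      rw [← Finset.add_sum_erase _ _ hx, SimpleGraph.dist_self, zero_add]
      have h2 := Finset.card_nsmul_le_sum (Aᶜ.erase x) (fun y => G.dist x y) 1
        (fun y hy => hpos x y (Finset.ne_of_mem_erase hy).symm)
      rwa [Finset.card_erase_of_mem hx, hBcard, smul_eq_mul, mul_one] at h2
    have := Finset.card_nsmul_le_sum _ _ _ h1
    rwa [hBcard, smul_eq_mul] at this
  have htot : ∑ x, ∑ y, G.dist x y = (∑ x ∈ A, ∑ y ∈ A, G.dist x y +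
      ∑ x ∈ A, ∑ y ∈ Aᶜ, G.dist x y) + (∑ x ∈ Aᶜ, ∑ y ∈ A, G.dist x y +
      ∑ x ∈ Aᶜ, ∑ y ∈ Aᶜ, G.dist x y) := by
    rw [← Finset.sum_add_distrib, ← Finset.sum_add_distrib]
    simp_rw [Finset.sum_add_sum_compl]
  unfold target
  omega

lemma ratio_le {V W : Type} [Fintype V] [Fintype W] {G : SimpleGraph V} {H : SimpleGraph W}
    (hVW : Fintype.card V = Fintype.card W) (hV : 2 ≤ Fintype.card V) (hH : H.Connected)
    (hd : G.diam * ∑ x, ∑ y, H.dist x y ≤ H.diam * ∑ x, ∑ y, G.dist x y)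
    (hG : 0 < ∑ x, ∑ y, G.dist x y) : ratio G ≤ ratio H := by
  classical
  have hHpos : 0 < ∑ x, ∑ y, H.dist x y := by
    obtain ⟨a, b, hab⟩ := Fintype.exists_pair_of_one_lt_card (by omega : 1 < Fintype.card W)
    have h1 := hH.pos_dist_of_ne hab
    have h2 : H.dist a b ≤ ∑ y, H.dist a y :=
      Finset.single_le_sum (f := fun y => H.dist a y) (fun _ _ => Nat.zero_le _)
      (Finset.mem_univ b)
    have h3 : ∑ y, H.dist a y ≤ ∑ x, ∑ y, H.dist x y :=
      Finset.single_le_sum (f := fun x => ∑ y, H.dist x y) (fun _ _ => Nat.zero_le _)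
      (Finset.mem_univ a)
    omega
  unfold ratio avgDist
  have hN : (0 : ℝ) < (Fintype.card W : ℝ) * ((Fintype.card W : ℝ) - 1) := by
    have : (2 : ℝ) ≤ Fintype.card W := by
      rw [hVW] at hV
      exact_mod_cast hV
    nlinarith
  rw [hVW]
  have h1 : (0 : ℝ) < ∑ x, ∑ y, (G.dist x y : ℝ) := by exact_mod_cast hG
  have h2 : (0 : ℝ) < ∑ x, ∑ y, (H.dist x y : ℝ) := by exact_mod_cast hHpos
  have h3 : (G.diam : ℝ) * ∑ x, ∑ y, (H.dist x y : ℝ) ≤ H.diam * ∑ x, ∑ y, (G.dist x y : ℝ) := by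
    exact_mod_cast hd
  rw [div_div_eq_mul_div, div_div_eq_mul_div, div_le_div_iff₀ h1 h2]
  nlinarith

lemma bug_conn (q k1 k2 : ℕ) : (bug (q + 3) k1 k2).Connected := by
  have : Nonempty (Fin (q + 3) ⊕ (Fin k1 ⊕ Fin k2)) := ⟨.inl 0⟩
  apply conn_of_pos (bug_adj (q + 3) k1 k2) (D := k1 + k2 + 2)
  · intro i hi
    exact ⟨enum q k1 k2 (.inl ⟨i, by omega⟩), enum_pos_inl q k1 k2 _⟩
  · intro x
    obtain ⟨z, rfl⟩ := (enum_bij q k1 k2).2 x
    rcases z with i | j
    · rw [enum_pos_inl]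
      have := i.isLt
      omega
    · rw [enum_pos_inr]
      omega

/-- For every `n ≥ 3` some balanced bug on `n` vertices maximises the ratio diameter / average
distance among all connected graphs on `n` vertices. -/
theorem result : ∀ n : ℕ, 3 ≤ n → ∃ p k1 k2 : ℕ, 3 ≤ p ∧ p + k1 + k2 = n ∧
    (k1 ≤ k2 + 1 ∧ k2 ≤ k1 + 1) ∧ (bug p k1 k2).Connected ∧
    ∀ G : SimpleGraph (Fin n), G.Connected → ratio G ≤ ratio (bug p k1 k2) := by
  classical
  intro n hn
  -- the bug of diameter `s + 2`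
  set F : ℕ → ℝ := fun s => ratio (bug (n - 3 - s + 3) (s / 2) (s - s / 2)) with hF
  obtain ⟨s, hs, hmax⟩ := Finset.exists_max_image (Finset.range (n - 2)) F ⟨0, by simp; omega⟩
  rw [Finset.mem_range] at hs
  refine ⟨n - 3 - s + 3, s / 2, s - s / 2, by omega, by omega, by omega, bug_conn _ _ _, ?_⟩
  intro G hc
  have : Nonempty (Fin n) := ⟨⟨0, by omega⟩⟩
  have hnt : G.ediam ≠ ⊤ := SimpleGraph.connected_iff_ediam_ne_top.1 hc
  have hpos : ∀ x y, x ≠ y → 1 ≤ G.dist x y := fun x y hxy => (hc.pos_dist_of_ne hxy)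
  have hTlow : n * (n - 1) ≤ ∑ x, ∑ y, G.dist x y := by
    have h1 : ∀ x ∈ (Finset.univ : Finset (Fin n)), n - 1 ≤ ∑ y, G.dist x y := by
      intro x hx
      rw [← Finset.add_sum_erase _ _ hx, SimpleGraph.dist_self, zero_add]
      have h2 := Finset.card_nsmul_le_sum (Finset.univ.erase x) (fun y => G.dist x y) 1
        (fun y hy => hpos x y (Finset.ne_of_mem_erase hy).symm)
      rwa [Finset.card_erase_of_mem hx, Finset.card_univ, Fintype.card_fin, smul_eq_mul,
        mul_one] at h2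
    have := Finset.card_nsmul_le_sum _ _ _ h1
    rwa [Finset.card_univ, Fintype.card_fin, smul_eq_mul] at this
  have hTpos : 0 < ∑ x, ∑ y, G.dist x y := by
    have : 0 < n * (n - 1) := Nat.mul_pos (by omega) (by omega)
    omega
  have hcardbug : ∀ t, t < n - 2 → Fintype.card (Fin (n - 3 - t + 3) ⊕
      (Fin (t / 2) ⊕ Fin (t - t / 2))) = n := by
    intro t ht
    simp only [Fintype.card_sum, Fintype.card_fin]
    omega
  by_cases hD : G.diam ≤ 1
  · -- complete graphs
    refine le_trans ?_ (hmax 0 (by rw [Finset.mem_range]; omega))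
    show ratio G ≤ ratio (bug (n - 3 - 0 + 3) (0 / 2) (0 - 0 / 2))
    have hcb := hcardbug 0 (by omega)
    apply ratio_le (by rw [hcb, Fintype.card_fin]) (by rw [Fintype.card_fin]; omega)
      (bug_conn _ _ _) _ hTpos
    have h1 := bug_diam (n - 3 - 0) (0 / 2) (0 - 0 / 2)
    have h2 := bug_total (n - 3 - 0) (0 / 2) (0 - 0 / 2)
    set H := bug (n - 3 - 0 + 3) (0 / 2) (0 - 0 / 2) with hH
    have h3 : ∑ x, ∑ y, H.dist x y ≤ 2 * (n * (n - 1)) := by
      refine h2.trans ?_
      obtain ⟨m, rfl⟩ : ∃ m, n = m + 3 := ⟨n - 3, by omega⟩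
      unfold target
      simp [Fin.sum_univ_succ, dd]
      rcases m with _ | m
      · simp
      · simp
        ring_nf
        nlinarith
    calc G.diam * ∑ x, ∑ y, H.dist x y ≤ 1 * (2 * (n * (n - 1))) := Nat.mul_le_mul hD h3
      _ = 2 * (n * (n - 1)) := one_mul _
      _ ≤ H.diam * ∑ x, ∑ y, G.dist x y := Nat.mul_le_mul (by omega) hTlow
  · push Not at hD
    obtain ⟨u, v, huv⟩ := G.exists_dist_eq_diam
    set D := G.diam with hDdef
    have hDn : D < n := by
      obtain ⟨w, hw1, hw2⟩ := hc.exists_path_of_dist u v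
      have := hw1.length_lt
      rw [Fintype.card_fin, hw2, huv] at this
      exact this
    refine le_trans ?_ (hmax (D - 2) (by rw [Finset.mem_range]; omega))
    show ratio G ≤ ratio (bug (n - 3 - (D - 2) + 3) ((D - 2) / 2) ((D - 2) - (D - 2) / 2))
    have hcb := hcardbug (D - 2) (by omega)
    apply ratio_le (by rw [hcb, Fintype.card_fin]) (by rw [Fintype.card_fin]; omega)
      (bug_conn _ _ _) _ hTpos
    have h1 := bug_diam (n - 3 - (D - 2)) ((D - 2) / 2) ((D - 2) - (D - 2) / 2)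
    have h2 := bug_total (n - 3 - (D - 2)) ((D - 2) / 2) ((D - 2) - (D - 2) / 2)
    have h3 := lower hc D (n - 3 - (D - 2)) ((D - 2) / 2 + 1)
      (by rw [Fintype.card_fin]; omega) u v huv (by omega)
    have e : (D - 2) / 2 + (D - 2 - (D - 2) / 2) + 2 = D := by omega
    rw [e] at h1 h2
    exact Nat.mul_le_mul h1 (h2.trans h3)

end Pool.Agent.Results.MP_aedb6c_co.BalancedBug
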